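import Pool.Agent.KS6_98.DMA.Main

set_option autoImplicit false

namespace Pool.Agent.Results.MP_04276e_nt.SmallConstants

/-- For every `k = m + 2 ≥ 2` and all real `α_1, …, α_{k-1}`, almost every real `t` has the
following property: for every `ε > 0` there are infinitely many `n ∈ ℤ^k` with
`‖n_1 α_1 + ⋯ + n_{k-1} α_{k-1} + n_k t‖ < ε / (H(n) (log H(n))^k)`. -/
theorem result (m : ℕ) (α : Fin (m + 1) → ℝ) :
    ∀ᵐ t : ℝ ∂MeasureTheory.volume, ∀ ε : ℝ, 0 < ε →
      Set.Infinite {n : Fin (m + 2) → ℤ |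
        |(∑ i : Fin (m + 1), (n (Fin.castSucc i) : ℝ) * α i
            + (n (Fin.last (m + 1)) : ℝ) * t)
          - (round (∑ i : Fin (m + 1), (n (Fin.castSucc i) : ℝ) * α i
            + (n (Fin.last (m + 1)) : ℝ) * t) : ℝ)|
        < ε / ((∏ i : Fin (m + 2), max |(n i : ℝ)| 2)
            * (Real.log (∏ i : Fin (m + 2), max |(n i : ℝ)| 2)) ^ (m + 2))} := by
  filter_upwards [Pool.Agent.KS6_98.DMA.main' m α] with t ht ε hε
  have h := ht ε hε
  simp only [Pool.Agent.H53.Dm.ps, Pool.Agent.H53.Vert.nd, mul_one_div] at h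
  exact h

end Pool.Agent.Results.MP_04276e_nt.SmallConstants
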